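import Pool.Agent.helper59.PT.Spec

set_option linter.all false
set_option autoImplicit false

/-!
# Uniqueness of Gaussian functionals (row pt:UN)
-/

namespace Pool.Agent.helper72.PT

open MvPolynomial Pool.Agent.helper59.PT

/-- two Gaussian functionals with the same covariance agree on all monomials -/
theorem isG_monomial {V : Type} [Fintype V] [DecidableEq V] {K : V → V → ℂ}
    {L L' : MvPolynomial V ℂ →ₗ[ℂ] ℂ} (h : IsG K L) (h' : IsG K L') :
    ∀ (N : ℕ) (n : V →₀ ℕ) (c : ℂ), n.degree ≤ N → L (monomial n c) = L' (monomial n c) := by
  intro N
  induction N using Nat.strong_induction_on with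
  | _ N ih =>
    intro n c hn
    by_cases h0 : n = 0
    · subst h0
      have e : (monomial (0 : V →₀ ℕ) c : MvPolynomial V ℂ) = c • (1 : MvPolynomial V ℂ) := by
        rw [MvPolynomial.smul_eq_C_mul, mul_one]
        rfl
      rw [e, map_smul, map_smul, h.one, h'.one]
    · obtain ⟨v, hv⟩ : ∃ v, n v ≠ 0 := by
        by_contra hcon
        apply h0
        ext v
        by_contra hv
        exact hcon ⟨v, hv⟩
      have hsplit : n = Finsupp.single v 1 + (n - Finsupp.single v 1) := by
        ext w
        by_cases hw : w = v
        · subst hw
          simp only [Finsupp.add_apply, Finsupp.single_eq_same, Finsupp.tsub_apply]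
          omega
        · simp [Finsupp.add_apply, Finsupp.tsub_apply, Finsupp.single_apply, Ne.symm hw, hw]
      set n' := n - Finsupp.single v 1 with hn'
      have hdeg : n.degree = 1 + n'.degree := by
        conv_lhs => rw [hsplit]
        rw [map_add, Finsupp.degree_single]
      have hm : (monomial n c : MvPolynomial V ℂ) = X v * monomial n' c := by
        conv_lhs => rw [hsplit]
        rw [X, monomial_mul, one_mul]
      rw [hm, h.step, h'.step]
      refine Finset.sum_congr rfl fun w _ => ?_
      congr 1
      rw [pderiv_monomial]
      refine ih n'.degree (by omega) _ _ ?_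
      exact Finsupp.degree_mono tsub_le_self
  
/-- **pt:UN** uniqueness of Gaussian functionals -/
theorem rowUN : RowUN := by
  intro V _ _ K L L' h h'
  apply MvPolynomial.linearMap_ext
  intro n
  apply LinearMap.ext
  intro c
  exact isG_monomial h h' n.degree n c le_rfl

end Pool.Agent.helper72.PT
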